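import Mathlib

/-!
# Congruences on the monoid of r-tuples of natural numbers

Every congruence on `ℕ ^ r` is decided by a finite list of replacements (Rédei, Dickson).
-/

set_option autoImplicit false

namespace Pool.Agent.TH895.CS

/-- One replacement: `v` results from `u` if a sub-sum `p.1` is replaced by `p.2`, for a pair `p` of
the list `R`. -/
def Step {r : ℕ} (R : Finset ((Fin r → ℕ) × (Fin r → ℕ))) (u v : Fin r → ℕ) : Prop :=
  ∃ p ∈ R, ∃ z, u = p.1 + z ∧ v = p.2 + z

/-- A number of replacements leads from `x` to `u` and no replacement is possible in `u`. -/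
def EndsAt {r : ℕ} (R : Finset ((Fin r → ℕ) × (Fin r → ℕ))) (x u : Fin r → ℕ) : Prop :=
  Relation.ReflTransGen (Step R) x u ∧ ∀ v, ¬ Step R u v

/-- Congruences on `ℕ ^ r` are given by finitely many replacements. -/
lemma rules {r : ℕ} (ρ : AddCon (Fin r → ℕ)) :
    ∃ R : Finset ((Fin r → ℕ) × (Fin r → ℕ)), (∀ p ∈ R, ρ p.1 p.2) ∧
      (∀ x : ℕ → (Fin r → ℕ), ∃ n, ¬ Step R (x n) (x (n + 1))) ∧
      (∀ x, ∃ u, EndsAt R x u) ∧
      ∀ x y u v, EndsAt R x u → EndsAt R y v → (ρ x y ↔ u = v) := by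
  classical
  let B : Set (Fin r → ℕ) := {x | ∃ x', ρ x x' ∧ toLex x' < toLex x}
  have hpwo : B.IsPWO := Set.isPWO_of_wellQuasiOrderedLE B
  have hfin : {x | Minimal (· ∈ B) x}.Finite :=
    (setOfPred_minimal_antichain _).finite_of_partiallyWellOrderedOn
      (hpwo.mono (setOfPred_minimal_subset _))
  have hch : ∀ b : Fin r → ℕ, ∃ b', b ∈ B → ρ b b' ∧ toLex b' < toLex b := by
    intro b
    by_cases hb : b ∈ B
    · obtain ⟨b', h⟩ := hb
      exact ⟨b', fun _ => h⟩
    · exact ⟨0, fun h => absurd h hb⟩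
  choose g hg using hch
  let R : Finset ((Fin r → ℕ) × (Fin r → ℕ)) := hfin.toFinset.image fun b => (b, g b)
  have hR : ∀ p ∈ R, ρ p.1 p.2 ∧ toLex p.2 < toLex p.1 := by
    intro p hp
    obtain ⟨b, hb, rfl⟩ := Finset.mem_image.1 hp
    have hb' : Minimal (· ∈ B) b := by simpa using hb
    exact hg b hb'.1
  have hstep : ∀ u v, Step R u v → ρ u v ∧ toLex v < toLex u := by
    rintro u v ⟨p, hp, z, rfl, rfl⟩
    refine ⟨ρ.add (hR p hp).1 (ρ.refl z), ?_⟩
    rw [toLex_add, toLex_add]
    exact add_lt_add_left (hR p hp).2 (toLex z)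
  have hred : ∀ u, (∀ v, ¬ Step R u v) → u ∉ B := by
    intro u hu huB
    obtain ⟨b, hbu, hb⟩ := hpwo.exists_le_minimal huB
    refine hu (g b + (u - b)) ⟨(b, g b), ?_, u - b, ?_, rfl⟩
    · exact Finset.mem_image.2 ⟨b, by simpa using hb, rfl⟩
    · exact (add_tsub_cancel_of_le hbu).symm
  have hchain : ∀ x u, Relation.ReflTransGen (Step R) x u → ρ x u := by
    intro x u h
    induction h with
    | refl => exact ρ.refl x
    | tail _ h ih => exact ρ.trans ih (hstep _ _ h).1
  refine ⟨R, fun p hp => (hR p hp).1, ?_, ?_, ?_⟩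
  · intro x
    by_contra hcon
    push Not at hcon
    have hanti : StrictAnti fun n => toLex (x n) :=
      strictAnti_nat_of_succ_lt fun n => (hstep _ _ (hcon n)).2
    exact not_strictAnti_of_wellFoundedLT _ hanti
  · intro x
    have hwf : WellFounded fun a b : Fin r → ℕ => toLex a < toLex b :=
      InvImage.wf toLex wellFounded_lt
    induction x using hwf.induction with
    | _ x ih =>
      by_cases h : ∃ v, Step R x v
      · obtain ⟨v, hv⟩ := h
        obtain ⟨u, h1, h2⟩ := ih v (hstep _ _ hv).2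
        exact ⟨u, Relation.ReflTransGen.head hv h1, h2⟩
      · exact ⟨x, Relation.ReflTransGen.refl, fun v hv => h ⟨v, hv⟩⟩
  · intro x y u v hx hy
    have hxu := hchain x u hx.1
    have hyv := hchain y v hy.1
    constructor
    · intro hxy
      have huv : ρ u v := ρ.trans (ρ.symm hxu) (ρ.trans hxy hyv)
      rcases lt_trichotomy (toLex u) (toLex v) with h | h | h
      · exact absurd ⟨u, ρ.symm huv, h⟩ (hred v hy.2)
      · exact toLex.injective h
      · exact absurd ⟨v, huv, h⟩ (hred u hx.2)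
    · rintro rfl
      exact ρ.trans hxu (ρ.symm hyv)

end Pool.Agent.TH895.CS
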